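import Mathlib

/-!
# A temperate frame that is not spatial
-/

namespace Pool.Agent.Results.MP_f10132_gt.AddedTop

universe u v

/-- A filter on `L`: a nonempty upwards closed set in which any two elements have a lower
bound. -/
def IsFilt {L : Type u} [Order.Frame L] (F : Set L) : Prop :=
  F.Nonempty ∧ IsUpperSet F ∧ ∀ a ∈ F, ∀ b ∈ F, ∃ c ∈ F, c ≤ a ∧ c ≤ b

/-- A Scott open set: upwards closed, and whenever the supremum of a (nonempty) directed set
lies in it, some member of the directed set does. -/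
def IsScottOpen {L : Type u} [Order.Frame L] (U : Set L) : Prop :=
  IsUpperSet U ∧ ∀ D : Set L, D.Nonempty → DirectedOn (· ≤ ·) D → sSup D ∈ U → ∃ d ∈ D, d ∈ U

/-- The join of two filters: `{u ⊓ v : u ∈ F, v ∈ G}`. -/
def filtJoin {L : Type u} [Order.Frame L] (F G : Set L) : Set L :=
  {w | ∃ u ∈ F, ∃ v ∈ G, w = u ⊓ v}

/-- `L` is locally temperate: the join of any two Scott open filters is Scott open. -/
def LocallyTemperate (L : Type u) [Order.Frame L] : Prop :=
  ∀ F G : Set L, IsFilt F → IsScottOpen F → IsFilt G → IsScottOpen G →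
    IsScottOpen (filtJoin F G)

/-- `L` is temperate: it is locally temperate and the filter `{⊤}` is Scott open. -/
def Temperate (L : Type u) [Order.Frame L] : Prop :=
  LocallyTemperate L ∧ IsScottOpen ({⊤} : Set L)

/-! ### Adding a new top to a frame without prime elements -/

section AddTop

variable (R : Type u) [Order.Frame R]

/-- The frame `R` with a new top element, realized as the pairs `(a, p)` of an element of `R`
and a proposition such that `p` implies `a = ⊤`. -/
def addTop : CompleteSublattice (R × Prop) :=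
  CompleteSublattice.mk' {x | x.2 → x.1 = ⊤}
    (by
      intro s hs h
      rw [Prod.snd_sSup, sSup_image] at h
      simp only [iSup_Prop_eq] at h
      obtain ⟨x, hx, hx2⟩ := h
      rw [Prod.fst_sSup, eq_top_iff, ← hs hx hx2]
      exact le_sSup ⟨x, hx, rfl⟩)
    (by
      intro s hs h
      rw [Prod.snd_sInf, sInf_image] at h
      simp only [iInf_Prop_eq] at h
      rw [Prod.fst_sInf, eq_top_iff]
      refine le_sInf ?_
      rintro _ ⟨x, hx, rfl⟩
      rw [hs hx (h x hx)])

/-- The carrier type of the frame with a new top. -/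
abbrev AT : Type u := ↥(addTop R)

instance : Order.Frame (AT R) :=
  Order.Frame.ofMinimalAxioms
    (Function.frameMinimalAxioms Order.Frame.MinimalAxioms.of (Subtype.val : AT R → R × Prop)
      Iff.rfl (fun _ _ => rfl) CompleteSublattice.coe_sSup')

variable {R}

/-- The old elements. -/
def old (a : R) : AT R := ⟨(a, False), fun h => h.elim⟩

theorem old_le {a b : R} : (old a ≤ old b) ↔ a ≤ b := by
  constructor
  · intro h
    exact h.1
  · intro h
    exact ⟨h, le_rfl⟩

theorem eq_top_or (x : AT R) : x = ⊤ ∨ ∃ a : R, x = old a := by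
  by_cases h : x.1.2
  · left
    apply Subtype.ext
    apply Prod.ext
    · exact x.2 h
    · exact eq_true h
  · right
    refine ⟨x.1.1, ?_⟩
    apply Subtype.ext
    apply Prod.ext
    · rfl
    · exact eq_false h

theorem old_sSup (C : Set R) : sSup (old '' C) = old (sSup C) := by
  apply le_antisymm
  · refine sSup_le ?_
    rintro _ ⟨a, ha, rfl⟩
    exact old_le.2 (le_sSup ha)
  · rcases eq_top_or (sSup (old '' C)) with h | ⟨b, h⟩
    · rw [h]; exact le_top
    · rw [h, old_le]
      refine sSup_le fun a ha => ?_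
      rw [← old_le, ← h]
      exact le_sSup ⟨a, ha, rfl⟩

theorem old_inf (a b : R) : old a ⊓ old b = old (a ⊓ b) := by
  apply le_antisymm
  · rcases eq_top_or (old a ⊓ old b) with h | ⟨c, h⟩
    · exfalso
      have h1 : (⊤ : AT R) ≤ old a := h ▸ inf_le_left
      exact h1.2 trivial
    · rw [h, old_le]
      refine le_inf ?_ ?_
      · rw [← old_le, ← h]; exact inf_le_left
      · rw [← old_le, ← h]; exact inf_le_right
  · exact le_inf (old_le.2 inf_le_left) (old_le.2 inf_le_right)

/-- There are no prime elements. -/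
def NoPrimes (R : Type u) [Order.Frame R] : Prop :=
  ∀ p : R, p ≠ ⊤ → ∃ a b : R, a ⊓ b ≤ p ∧ ¬ a ≤ p ∧ ¬ b ≤ p

theorem top_ne_old (a : R) : (⊤ : AT R) ≠ old a := by
  intro h
  have h1 : (⊤ : AT R) ≤ old a := h.le
  exact h1.2 trivial

/-- The Scott open filters of the frame with a new top. -/
theorem filter_cases (hR : NoPrimes R) (F : Set (AT R)) (hF : IsFilt F)
    (hS : IsScottOpen F) : F = {⊤} ∨ F = Set.univ := by
  obtain ⟨⟨f0, hf0⟩, hup, hdir⟩ := hF
  have htop : (⊤ : AT R) ∈ F := hup le_top hf0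
  have hinf : ∀ a ∈ F, ∀ b ∈ F, a ⊓ b ∈ F := by
    intro a ha b hb
    obtain ⟨c, hc, h1, h2⟩ := hdir a ha b hb
    exact hup (le_inf h1 h2) hc
  by_cases h : ∀ x ∈ F, x = ⊤
  · left
    ext x
    constructor
    · exact h x
    · rintro rfl; exact htop
  · right
    push Not at h
    obtain ⟨x, hx, hxt⟩ := h
    obtain ⟨a0, rfl⟩ := (eq_top_or x).resolve_left hxt
    by_contra hne
    have hbot : old (⊥ : R) ∉ F := by
      intro hb
      apply hne
      ext y
      simp only [Set.mem_univ, iff_true]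
      rcases eq_top_or y with rfl | ⟨c, rfl⟩
      · exact htop
      · exact hup (old_le.2 bot_le) hb
    obtain ⟨p, _, hp⟩ := zorn_le_nonempty₀ {a : R | old a ∉ F} (by
      intro c hc hchain y hy
      refine ⟨sSup c, fun h => ?_, fun z hz => le_sSup hz⟩
      rw [← old_sSup c] at h
      have hd : DirectedOn (· ≤ ·) (old '' c) := by
        rintro _ ⟨u, hu, rfl⟩ _ ⟨v, hv, rfl⟩
        obtain ⟨w, hw, h1, h2⟩ := hchain.directedOn u hu v hv
        exact ⟨old w, ⟨w, hw, rfl⟩, old_le.2 h1, old_le.2 h2⟩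
      obtain ⟨_, ⟨d, hd, rfl⟩, hdF⟩ := hS.2 (old '' c) ⟨old y, y, hy, rfl⟩ hd h
      exact hc hd hdF) ⊥ hbot
    have hpF : old p ∉ F := hp.prop
    have hsup : ∀ a : R, ¬ a ≤ p → old (p ⊔ a) ∈ F := by
      intro a ha
      by_contra hcon
      exact ha (le_sup_right.trans (hp.le_of_ge hcon le_sup_left))
    have hpt : p ≠ ⊤ := by
      rintro rfl
      exact hpF (hup (old_le.2 le_top) hx)
    obtain ⟨a, b, hab, ha, hb⟩ := hR p hpt
    have h1 := hinf _ (hsup a ha) _ (hsup b hb)
    rw [old_inf, ← sup_inf_left, sup_eq_left.2 hab] at h1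
    exact hpF h1

theorem isUpperSet_filtJoin {L : Type u} [Order.Frame L] (F G : Set L)
    (hF : IsUpperSet F) (hG : IsUpperSet G) : IsUpperSet (filtJoin F G) := by
  rintro _ w hw ⟨a, ha, b, hb, rfl⟩
  refine ⟨w ⊔ a, hF le_sup_right ha, w ⊔ b, hG le_sup_right hb, ?_⟩
  rw [← sup_inf_left, sup_eq_left.2 hw]

theorem scottOpen_univ {L : Type u} [Order.Frame L] : IsScottOpen (Set.univ : Set L) :=
  ⟨isUpperSet_univ, fun _ ⟨d, hd⟩ _ _ => ⟨d, hd, trivial⟩⟩

theorem scottOpen_top : IsScottOpen ({⊤} : Set (AT R)) := by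
  refine ⟨fun a b hab ha => ?_, ?_⟩
  · rw [Set.mem_singleton_iff] at ha ⊢
    subst ha
    exact top_le_iff.1 hab
  · intro D hD _ h
    by_contra hcon
    push Not at hcon
    have hle : sSup D ≤ old (⊤ : R) := by
      refine sSup_le fun d hd => ?_
      rcases eq_top_or d with rfl | ⟨a, rfl⟩
      · exact (hcon ⊤ hd rfl).elim
      · exact old_le.2 le_top
    rw [Set.mem_singleton_iff] at h
    rw [h] at hle
    exact hle.2 trivial

theorem temperate (hR : NoPrimes R) : Temperate (AT R) := by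
  refine ⟨?_, scottOpen_top⟩
  intro F G hF hFS hG hGS
  have key : ∀ F G : Set (AT R), IsFilt F → IsFilt G → F = Set.univ →
      IsScottOpen (filtJoin F G) ∧ IsScottOpen (filtJoin G F) := by
    rintro F G hF hG rfl
    obtain ⟨g, hg⟩ := hG.1
    have h1 : filtJoin (Set.univ : Set (AT R)) G = Set.univ := by
      ext w
      simp only [Set.mem_univ, iff_true]
      exact ⟨w, trivial, ⊤, hG.2.1 le_top hg, (inf_top_eq w).symm⟩
    have h2 : filtJoin G (Set.univ : Set (AT R)) = Set.univ := by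
      ext w
      simp only [Set.mem_univ, iff_true]
      exact ⟨⊤, hG.2.1 le_top hg, w, trivial, (top_inf_eq w).symm⟩
    rw [h1, h2]
    exact ⟨scottOpen_univ, scottOpen_univ⟩
  rcases filter_cases hR F hF hFS with h1 | h1
  · rcases filter_cases hR G hG hGS with h2 | h2
    · subst h1 h2
      have : filtJoin ({⊤} : Set (AT R)) {⊤} = {⊤} := by
        ext w
        constructor
        · rintro ⟨a, ha, b, hb, rfl⟩
          rw [Set.mem_singleton_iff] at ha hb ⊢
          rw [ha, hb, inf_idem]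
        · intro hw
          exact ⟨⊤, rfl, ⊤, rfl, by rw [inf_idem]; exact hw⟩
      rw [this]
      exact scottOpen_top
    · exact (key G F hG hF h2).2
  · exact (key F G hF hG h1).1

theorem not_spatial [Nontrivial R] (hR : NoPrimes R) (X : Type v) [TopologicalSpace X] :
    IsEmpty (AT R ≃o TopologicalSpace.Opens X) := by
  refine ⟨fun e => ?_⟩
  have h1 : ¬ (old (⊤ : R) ≤ old (⊥ : R)) := by
    rw [old_le, top_le_iff]
    exact bot_ne_top
  have h2 : ¬ (e (old (⊤ : R)) ≤ e (old (⊥ : R))) := by rwa [e.le_iff_le]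
  obtain ⟨x, hx1, hx2⟩ : ∃ x, x ∈ e (old (⊤ : R)) ∧ x ∉ e (old (⊥ : R)) := by
    by_contra hcon
    push Not at hcon
    exact h2 fun x hx => hcon x hx
  obtain ⟨p, hp⟩ : ∃ p : R, p = sSup {a : R | x ∉ e (old a)} := ⟨_, rfl⟩
  have hpx : x ∉ e (old p) := by
    rw [hp, ← old_sSup, map_sSup]
    intro h
    rw [TopologicalSpace.Opens.mem_sSup] at h
    obtain ⟨_, ⟨_, ⟨a, ha, rfl⟩, rfl⟩, hxa⟩ := h
    exact ha hxa
  have hle : ∀ a : R, x ∉ e (old a) → a ≤ p := by
    intro a ha
    rw [hp]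
    exact le_sSup ha
  have hpt : p ≠ ⊤ := by
    rintro rfl
    exact hpx hx1
  obtain ⟨a, b, hab, ha, hb⟩ := hR p hpt
  have hxa : x ∈ e (old a) := by
    by_contra h
    exact ha (hle a h)
  have hxb : x ∈ e (old b) := by
    by_contra h
    exact hb (hle b h)
  have hxab : x ∈ e (old (a ⊓ b)) := by
    rw [← old_inf, map_inf]
    exact ⟨hxa, hxb⟩
  exact hpx ((e.monotone (old_le.2 hab)) hxab)

end AddTop

/-! ### The regular open sets of the line -/

/-- The regular open subsets of the real line. -/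
def RO : Type := Heyting.Regular (TopologicalSpace.Opens ℝ)

noncomputable instance : CompleteLattice RO :=
  (Heyting.Regular.gi (α := TopologicalSpace.Opens ℝ)).liftCompleteLattice

/-- The underlying open set. -/
def RO.opens (a : RO) : TopologicalSpace.Opens ℝ := Heyting.Regular.val a

/-- Regularization. -/
def RO.mk (U : TopologicalSpace.Opens ℝ) : RO := Heyting.Regular.toRegular U

theorem RO.le_iff {a b : RO} : a ≤ b ↔ a.opens ≤ b.opens := Iff.rfl

theorem RO.inf_opens (a b : RO) : (a ⊓ b).opens = a.opens ⊓ b.opens := rfl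

theorem RO.mk_opens (U : TopologicalSpace.Opens ℝ) : (RO.mk U).opens = Uᶜᶜ := rfl

theorem RO.regular (a : RO) : a.opensᶜᶜ = a.opens := Heyting.Regular.prop a

noncomputable instance : Order.Frame RO :=
  Order.Frame.ofMinimalAxioms ⟨by
    intro a s
    have h1 : sSup s ≤ RO.mk (a.opens ⇨ (⨆ b ∈ s, a ⊓ b : RO).opens) := by
      refine sSup_le fun b hb => ?_
      rw [RO.le_iff, RO.mk_opens]
      refine le_trans ?_ le_compl_compl
      rw [le_himp_iff, inf_comm, ← RO.inf_opens, ← RO.le_iff]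
      exact le_iSup₂_of_le b hb le_rfl
    have h2 : (RO.mk (a.opens ⇨ (⨆ b ∈ s, a ⊓ b : RO).opens)).opens
        = (a.opens ⇨ (⨆ b ∈ s, a ⊓ b : RO).opens) := by
      rw [RO.mk_opens]
      exact Heyting.IsRegular.himp (RO.regular a) (RO.regular _)
    rw [RO.le_iff, h2, le_himp_iff, inf_comm] at h1
    exact h1⟩

theorem noPrimes : NoPrimes RO := by
  intro p hp
  have hne : (p.opensᶜ : TopologicalSpace.Opens ℝ) ≠ ⊥ := by
    intro h
    apply hp
    have h1 : p.opens = ⊤ := by rw [← RO.regular p, h, compl_bot]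
    refine top_le_iff.1 ?_
    rw [RO.le_iff, h1]
    exact le_top
  obtain ⟨x, hx⟩ : ∃ x, x ∈ (p.opensᶜ : TopologicalSpace.Opens ℝ) := by
    by_contra hcon
    push Not at hcon
    exact hne (le_bot_iff.1 fun x hx => (hcon x hx).elim)
  obtain ⟨ε, hε, hball⟩ := Metric.isOpen_iff.1 (p.opensᶜ : TopologicalSpace.Opens ℝ).isOpen x hx
  obtain ⟨V, hV⟩ : ∃ V : TopologicalSpace.Opens ℝ, V = ⟨Set.Ioo (x - ε) x, isOpen_Ioo⟩ :=
    ⟨_, rfl⟩
  obtain ⟨W, hW⟩ : ∃ W : TopologicalSpace.Opens ℝ, W = ⟨Set.Ioo x (x + ε), isOpen_Ioo⟩ :=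
    ⟨_, rfl⟩
  have hVU : V ≤ p.opensᶜ := by
    intro y hy
    apply hball
    rw [hV] at hy
    have hy' : x - ε < y ∧ y < x := hy
    rw [Metric.mem_ball, Real.dist_eq, abs_lt]
    constructor <;> linarith [hy'.1, hy'.2]
  have hWU : W ≤ p.opensᶜ := by
    intro y hy
    apply hball
    rw [hW] at hy
    have hy' : x < y ∧ y < x + ε := hy
    rw [Metric.mem_ball, Real.dist_eq, abs_lt]
    constructor <;> linarith [hy'.1, hy'.2]
  have hVW : V ⊓ W = ⊥ := by
    refine le_bot_iff.1 fun y hy => ?_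
    have h1 : y ∈ V := hy.1
    have h2 : y ∈ W := hy.2
    rw [hV] at h1
    rw [hW] at h2
    have h1' : x - ε < y ∧ y < x := h1
    have h2' : x < y ∧ y < x + ε := h2
    exact absurd h1'.2 (not_lt.2 h2'.1.le)
  have hnot : ∀ Z : TopologicalSpace.Opens ℝ, Z ≤ p.opensᶜ → (∃ z, z ∈ Z) →
      ¬ RO.mk Z ≤ p := by
    rintro Z hZ ⟨z, hz⟩ hle
    have h1 : Z ≤ p.opens := le_trans le_compl_compl (RO.le_iff.1 hle)
    have h2 : Z ≤ p.opens ⊓ p.opensᶜ := le_inf h1 hZ
    rw [inf_compl_self] at h2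
    exact h2 hz
  refine ⟨RO.mk V, RO.mk W, ?_, hnot V hVU ⟨x - ε / 2, ?_⟩, hnot W hWU ⟨x + ε / 2, ?_⟩⟩
  · rw [RO.le_iff, RO.inf_opens, RO.mk_opens, RO.mk_opens, ← compl_compl_inf_distrib, hVW,
      compl_bot, compl_top]
    exact bot_le
  · rw [hV]
    exact ⟨by linarith, by linarith⟩
  · rw [hW]
    exact ⟨by linarith, by linarith⟩

theorem top_ne_bot_RO : (⊥ : RO) ≠ ⊤ := by
  intro h
  have h1 : RO.mk ⊤ ≤ (⊥ : RO) := by rw [h]; exact le_top
  have h2 : (⊥ : RO) ≤ RO.mk ⊥ := bot_le
  have h3 := RO.le_iff.1 (h1.trans h2)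
  rw [RO.mk_opens, RO.mk_opens, compl_bot, compl_top, compl_bot] at h3
  exact h3 (show (0 : ℝ) ∈ (⊤ : TopologicalSpace.Opens ℝ) from trivial)

/-- **Theorem.** There is a temperate frame that is not spatial. -/
theorem result : ∃ (L : Type) (_ : Order.Frame L), Temperate L ∧
    ∀ (X : Type v) [TopologicalSpace X], IsEmpty (L ≃o TopologicalSpace.Opens X) := by
  have : Nontrivial RO := ⟨⊥, ⊤, top_ne_bot_RO⟩
  exact ⟨AT RO, inferInstance, temperate noPrimes, fun X _ => not_spatial noPrimes X⟩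

end Pool.Agent.Results.MP_f10132_gt.AddedTop
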